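import Pool.Agent.helper90.KS.Spec

/-!
# MP_26dbae_co, module SB: a termwise inequality
-/

set_option autoImplicit false

open scoped BigOperators

namespace Pool.Agent.KS

noncomputable section

open Classical

theorem SB_term (s c m : ℕ) (hs : 3 ≤ s) :
    m * c ^ (s - 1) ≤ c ^ s + m ^ (s - 1) * c := by
  obtain ⟨k, rfl⟩ : ∃ k, s = k + 2 := ⟨s - 2, by omega⟩
  have h1 : k + 2 - 1 = k + 1 := by omega
  rw [h1]
  rcases le_or_gt m c with h | h
  · calc m * c ^ (k + 1) ≤ c * c ^ (k + 1) := Nat.mul_le_mul_right _ h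
      _ = c ^ (k + 2) := by ring
      _ ≤ _ := Nat.le_add_right _ _
  · calc m * c ^ (k + 1) = m * c ^ k * c := by ring
      _ ≤ m * m ^ k * c :=
          Nat.mul_le_mul_right _ (Nat.mul_le_mul_left _ (Nat.pow_le_pow_left h.le k))
      _ = m ^ (k + 1) * c := by ring
      _ ≤ _ := Nat.le_add_left _ _

theorem SB_count (V : Type) [Fintype V] (L : V → Finset V) (D : ℕ)
    (hsym : ∀ v u, u ∈ L v → v ∈ L u) (hL : ∀ v, (L v).card ≤ D ^ 2) :
    ∑ v, ∑ v', (L v ∩ L v').card ≤ Fintype.card V * D ^ 4 := by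
  have h0 : ∀ v v' : V, (L v ∩ L v').card =
      ∑ u : V, (if v ∈ L u then 1 else 0) * (if v' ∈ L u then 1 else 0) := by
    intro v v'
    rw [Finset.card_eq_sum_ones, ← Finset.sum_filter_add_sum_filter_not Finset.univ
      (fun u => u ∈ L v ∩ L v')]
    have e1 : (Finset.univ.filter fun u => u ∈ L v ∩ L v') = L v ∩ L v' := by
      ext u; simp
    rw [e1]
    have e2 : ∑ u ∈ Finset.univ.filter (fun u => ¬ u ∈ L v ∩ L v'),
        ((if v ∈ L u then 1 else 0) * (if v' ∈ L u then 1 else 0)) = 0 := by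
      refine Finset.sum_eq_zero fun u hu => ?_
      rw [Finset.mem_filter] at hu
      by_cases h1 : v ∈ L u
      · by_cases h2 : v' ∈ L u
        · exact absurd (Finset.mem_inter.2 ⟨hsym u v h1, hsym u v' h2⟩) hu.2
        · simp [h2]
      · simp [h1]
    rw [e2, add_zero]
    refine Finset.sum_congr rfl fun u hu => ?_
    rw [Finset.mem_inter] at hu
    rw [if_pos (hsym v u hu.1), if_pos (hsym v' u hu.2)]
  have h1 : ∑ v, ∑ v', (L v ∩ L v').card = ∑ u : V, (L u).card ^ 2 := by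
    calc ∑ v, ∑ v', (L v ∩ L v').card
        = ∑ v, ∑ v', ∑ u : V, (if v ∈ L u then 1 else 0) * (if v' ∈ L u then 1 else 0) :=
          Finset.sum_congr rfl fun v _ => Finset.sum_congr rfl fun v' _ => h0 v v'
      _ = ∑ v, ∑ u : V, ∑ v', (if v ∈ L u then 1 else 0) * (if v' ∈ L u then 1 else 0) :=
          Finset.sum_congr rfl fun v _ => Finset.sum_comm
      _ = ∑ u : V, ∑ v, ∑ v', (if v ∈ L u then 1 else 0) * (if v' ∈ L u then 1 else 0) :=
          Finset.sum_comm
      _ = ∑ u : V, (L u).card ^ 2 := by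
          refine Finset.sum_congr rfl fun u _ => ?_
          have e : (L u).card = ∑ v : V, (if v ∈ L u then 1 else 0) := by simp
          rw [e, sq, Finset.sum_mul_sum]
  rw [h1]
  calc ∑ u : V, (L u).card ^ 2 ≤ ∑ _u : V, D ^ 4 := by
        refine Finset.sum_le_sum fun u _ => ?_
        calc (L u).card ^ 2 ≤ (D ^ 2) ^ 2 := Nat.pow_le_pow_left (hL u) 2
          _ = D ^ 4 := by ring
    _ = Fintype.card V * D ^ 4 := by
        rw [Finset.sum_const, Finset.card_univ, smul_eq_mul]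

theorem SB : SB_stmt := by
  intro V _ L s D l hs hD hl hsym hL
  have hc := SB_count V L D hsym hL
  have hterm : ∀ v v' : V, (l * D) * (L v ∩ L v').card ^ (s - 1) ≤
      (L v ∩ L v').card ^ s + (l * D) ^ (s - 1) * (L v ∩ L v').card :=
    fun v v' => SB_term s _ (l * D) hs
  have hsum : (l * D) * ∑ v, ∑ v', (L v ∩ L v').card ^ (s - 1) ≤
      ∑ v, ∑ v', (L v ∩ L v').card ^ s +
        (l * D) ^ (s - 1) * ∑ v, ∑ v', (L v ∩ L v').card := by
    rw [Finset.mul_sum, Finset.mul_sum, ← Finset.sum_add_distrib]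
    refine Finset.sum_le_sum fun v _ => ?_
    rw [Finset.mul_sum, Finset.mul_sum, ← Finset.sum_add_distrib]
    exact Finset.sum_le_sum fun v' _ => hterm v v'
  have hpow : D ^ (s - 1) * D ^ 4 ≤ D ^ (2 * s) := by
    rw [← pow_add]
    exact Nat.pow_le_pow_right hD (by omega)
  calc l * (D * ∑ v, ∑ v', (L v ∩ L v').card ^ (s - 1))
      = (l * D) * ∑ v, ∑ v', (L v ∩ L v').card ^ (s - 1) := by ring
    _ ≤ _ := hsum
    _ ≤ ∑ v, ∑ v', (L v ∩ L v').card ^ s + l ^ (s - 1) * (Fintype.card V * D ^ (2 * s)) := by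
        refine Nat.add_le_add_left ?_ _
        calc (l * D) ^ (s - 1) * ∑ v, ∑ v', (L v ∩ L v').card
            ≤ (l * D) ^ (s - 1) * (Fintype.card V * D ^ 4) := Nat.mul_le_mul_left _ hc
          _ = l ^ (s - 1) * (Fintype.card V * (D ^ (s - 1) * D ^ 4)) := by
              rw [mul_pow]; ring
          _ ≤ l ^ (s - 1) * (Fintype.card V * D ^ (2 * s)) :=
              Nat.mul_le_mul_left _ (Nat.mul_le_mul_left _ hpow)

end

end Pool.Agent.KS
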